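import Mathlib

/-!
Irrational-rotation sequences: the distance to the nearest integer, and the blocks of the
construction.
-/

namespace Q214.RS

/-- distance to the nearest integer -/
noncomputable def nn (x : ℝ) : ℝ := |x - round x|

theorem nn_nonneg (x : ℝ) : 0 ≤ nn x := abs_nonneg _

theorem nn_le_int (x : ℝ) (z : ℤ) : nn x ≤ |x - z| := round_le x z

theorem nn_le_abs (x : ℝ) : nn x ≤ |x| := by
  have := nn_le_int x 0
  simpa using this

theorem nn_add_int (x : ℝ) (z : ℤ) : nn (x + z) = nn x := by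
  unfold nn
  rw [round_add_intCast]
  push_cast
  congr 1
  ring

theorem nn_int_add (x : ℝ) (z : ℤ) : nn (z + x) = nn x := by
  rw [add_comm, nn_add_int]

theorem nn_int (z : ℤ) : nn (z : ℝ) = 0 := by
  unfold nn
  rw [round_intCast]
  simp

theorem nn_zero : nn 0 = 0 := by
  have := nn_int 0
  simpa using this

theorem nn_add (x y : ℝ) : nn (x + y) ≤ nn x + nn y := by
  have h := nn_le_int (x + y) (round x + round y)
  refine h.trans ?_
  unfold nn
  push_cast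
  have : x + y - ((round x : ℝ) + (round y : ℝ)) = (x - round x) + (y - round y) := by ring
  rw [this]
  exact abs_add_le _ _

theorem nn_neg (x : ℝ) : nn (-x) = nn x := by
  apply le_antisymm
  · have h := nn_le_int (-x) (-(round x))
    refine h.trans (le_of_eq ?_)
    unfold nn
    push_cast
    rw [← abs_neg]
    congr 1
    ring
  · have h := nn_le_int (x) (-(round (-x)))
    refine h.trans (le_of_eq ?_)
    unfold nn
    push_cast
    rw [← abs_neg]
    congr 1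
    ring

theorem nn_sub (x y : ℝ) : nn (x - y) ≤ nn x + nn y := by
  rw [sub_eq_add_neg, ← nn_neg y]
  exact nn_add _ _

theorem nn_eq_abs {x : ℝ} (h : |x| ≤ 1 / 2) : nn x = |x| := by
  apply le_antisymm (nn_le_abs x)
  unfold nn
  by_cases hr : round x = 0
  · rw [hr]; simp
  · have h1 : (1 : ℝ) ≤ |(round x : ℝ)| := by
      have : (1 : ℤ) ≤ |round x| := Int.one_le_abs hr
      calc (1 : ℝ) = ((1 : ℤ) : ℝ) := by simp
        _ ≤ ((|round x| : ℤ) : ℝ) := by exact_mod_cast this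
        _ = _ := by push_cast; rfl
    have h2 : |(round x : ℝ)| - |x| ≤ |x - round x| := by
      have := abs_sub_abs_le_abs_sub (round x : ℝ) x
      rw [abs_sub_comm] at this
      exact this
    linarith

/-- a non-integral fraction is far from the integers -/
theorem nn_frac {q : ℕ} (hq : 0 < q) {y : ℤ} (h : ¬ (q : ℤ) ∣ y) : 1 / (q : ℝ) ≤ nn ((y : ℝ) / q) := by
  unfold nn
  have hq' : (0 : ℝ) < q := by exact_mod_cast hq
  set r := round ((y : ℝ) / q) with hr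
  have h1 : (y : ℝ) / q - r = ((y - q * r : ℤ) : ℝ) / q := by
    push_cast
    field_simp
  rw [h1, abs_div, abs_of_pos hq']
  apply div_le_div_of_nonneg_right _ hq'.le
  have h2 : y - q * r ≠ 0 := by
    intro h0
    exact h ⟨r, by linarith⟩
  have : (1 : ℤ) ≤ |y - q * r| := Int.one_le_abs h2
  calc (1 : ℝ) = ((1 : ℤ) : ℝ) := by simp
    _ ≤ ((|y - q * r| : ℤ) : ℝ) := by exact_mod_cast this
    _ = _ := by push_cast; rfl

theorem nn_half {y : ℤ} (h : ¬ (2 : ℤ) ∣ y) : 1 / (2 : ℝ) ≤ nn ((y : ℝ) / 2) := by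
  have := @nn_frac 2 (by norm_num) y (by exact_mod_cast h)
  simpa using this

/-- the first bit where `y` is not divisible -/
theorem exists_bit {y : ℤ} {n : ℕ} (hy : ¬ (2 : ℤ) ^ n ∣ y) :
    ∃ j, j ≤ n ∧ 1 / (2 : ℝ) ≤ nn ((y : ℝ) / 2 ^ j) ∧ ¬ (2 : ℤ) ^ j ∣ y ∧ (2 : ℤ) ^ (j - 1) ∣ y := by
  classical
  have hex : ∃ j, ¬ (2 : ℤ) ^ j ∣ y := ⟨n, hy⟩
  set j := Nat.find hex with hj
  have h1 : ¬ (2 : ℤ) ^ j ∣ y := Nat.find_spec hex
  have h2 : j ≤ n := Nat.find_min' hex hy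
  have h0 : j ≠ 0 := by
    intro h
    rw [h] at h1
    simp at h1
  obtain ⟨i, hi⟩ := Nat.exists_eq_succ_of_ne_zero h0
  have h3 : (2 : ℤ) ^ i ∣ y := by
    by_contra hc
    have := Nat.find_min' hex hc
    rw [← hj] at this
    omega
  refine ⟨j, h2, ?_, h1, ?_⟩
  · obtain ⟨e, he⟩ := h3
    have h4 : ¬ (2 : ℤ) ∣ e := by
      rintro ⟨f, hf⟩
      apply h1
      rw [hi]
      exact ⟨f, by rw [he, hf, Nat.succ_eq_add_one, pow_succ]; ring⟩
    have h5 : ((y : ℝ) / 2 ^ j) = (e : ℝ) / 2 := by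
      rw [he, hi, Nat.succ_eq_add_one, pow_succ]
      push_cast
      field_simp
    rw [h5]
    exact nn_half h4
  · rw [hi]
    simpa using h3

theorem not_dvd_of_lt {y : ℤ} {n : ℕ} (h0 : y ≠ 0) (hy : |(y : ℝ)| < 2 ^ n) : ¬ (2 : ℤ) ^ n ∣ y := by
  intro h
  have h1 := Int.le_of_dvd (abs_pos.mpr h0) ((dvd_abs _ _).mpr h)
  have h2 : ((2 : ℤ) ^ n : ℝ) ≤ |(y : ℝ)| := by
    have : (((2 : ℤ) ^ n : ℤ) : ℝ) ≤ ((|y| : ℤ) : ℝ) := by exact_mod_cast h1
    push_cast at this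
    exact_mod_cast this
  push_cast at h2
  linarith

/-- The doubling argument. -/
theorem doubling {x : ℝ} (hx : |x| ≤ 1 / 2) {ε : ℝ} (hε : ε ≤ 1 / 4) :
    ∀ n : ℕ, (∀ i ≤ n, nn (2 ^ i * x) < ε) → |2 ^ n * x| < ε
  | 0, h => by
    have := h 0 le_rfl
    rw [pow_zero, one_mul] at this ⊢
    rwa [nn_eq_abs hx] at this
  | n + 1, h => by
    have ih := doubling hx hε n (fun i hi => h i (by omega))
    have h1 := h (n + 1) le_rfl
    have h2 : |2 ^ (n + 1) * x| ≤ 1 / 2 := by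
      have : (2 : ℝ) ^ (n + 1) * x = 2 * (2 ^ n * x) := by rw [pow_succ]; ring
      rw [this, abs_mul, abs_of_pos (by norm_num : (0 : ℝ) < 2)]
      linarith
    rwa [nn_eq_abs h2] at h1

/-! ### blocks -/

def nd (a : ℕ) : List ℕ := Denumerable.ofNat (List ℕ) a

def cd (s : List ℕ) : ℕ := Encodable.encode s

theorem nd_cd (s : List ℕ) : nd (cd s) = s := Denumerable.ofNat_encode s

theorem cd_nd (a : ℕ) : cd (nd a) = a := Denumerable.encode_ofNat a

/-- code of a child -/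
def ch (a i : ℕ) : ℕ := cd (i :: nd a)

theorem nd_ch (a i : ℕ) : nd (ch a i) = i :: nd a := nd_cd _

def w (m : ℕ) : ℕ := (Nat.unpair m).1 + (Nat.unpair m).2 + 5

def G (m : ℕ) : ℕ := 2 * w m + m + 10

def Tt (m : ℕ) : ℕ := ∑ l ∈ Finset.range m, G l

theorem Tt_succ (m : ℕ) : Tt (m + 1) = Tt m + G m := Finset.sum_range_succ _ _

def Kk (a k : ℕ) : ℕ := 2 * k + a + ∑ i ∈ Finset.range k, ch a i + 10

/-- the basic frequency `2^(T(m+1) - j)` -/
def pw (m j : ℕ) : ℤ := 2 ^ (Tt (m + 1) - j)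

theorem w_pair (a k : ℕ) : w (Nat.pair a k) = a + k + 5 := by
  unfold w; rw [Nat.unpair_pair]

theorem five_le_w (m : ℕ) : 5 ≤ w m := by unfold w; omega

theorem w_le_G (m : ℕ) : w m ≤ G m := by unfold G; omega

/-- `w → ∞`, quantitatively -/
theorem lt_w_sq (m : ℕ) : m < (w m) ^ 2 := by
  have h := Nat.pair_lt_max_add_one_sq (Nat.unpair m).1 (Nat.unpair m).2
  rw [Nat.pair_unpair] at h
  refine h.trans_le (Nat.pow_le_pow_left ?_ 2)
  unfold w
  rcases max_cases (Nat.unpair m).1 (Nat.unpair m).2 with h | h <;> omega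

theorem tendsto_w : Filter.Tendsto w Filter.atTop Filter.atTop := by
  rw [Filter.tendsto_atTop]
  intro b
  filter_upwards [Filter.eventually_ge_atTop (b ^ 2)] with m hm
  by_contra hc
  push Not at hc
  have h1 := lt_w_sq m
  have h2 := Nat.pow_le_pow_left hc.le 2
  omega

/-- The digits data of a real number `θ` along the blocks. -/
structure Dig (θ : ℝ) where
  x : ℕ → ℝ
  N : ℕ → ℤ
  D : ℕ → ℤ
  hN : ∀ m, 2 ^ Tt m * θ = N m + x m
  hD : ∀ m, 2 ^ G m * x m = D m + x (m + 1)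

theorem Dig.pw_val {θ : ℝ} (d : Dig θ) {m j : ℕ} (hj : j ≤ G m) :
    ∃ z : ℤ, (pw m j : ℝ) * θ = z + ((d.D m : ℝ) + d.x (m + 1)) / 2 ^ j := by
  refine ⟨2 ^ (G m - j) * d.N m, ?_⟩
  have h1 : Tt (m + 1) - j = Tt m + (G m - j) := by
    rw [Tt_succ]; omega
  unfold pw
  rw [h1, pow_add]
  push_cast
  have h2 := d.hN m
  have h3 := d.hD m
  have h4 : (2 : ℝ) ^ G m = 2 ^ (G m - j) * 2 ^ j := by
    rw [← pow_add]; congr 1; omega
  rw [← h3, h4]
  have h5 : (2 : ℝ) ^ Tt m * 2 ^ (G m - j) * θ = 2 ^ (G m - j) * (2 ^ Tt m * θ) := by ring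
  rw [h5, h2]
  field_simp

theorem Dig.nn_pw {θ : ℝ} (d : Dig θ) {m j : ℕ} (hj : j ≤ G m) :
    nn ((pw m j : ℝ) * θ) = nn (((d.D m : ℝ) + d.x (m + 1)) / 2 ^ j) := by
  obtain ⟨z, hz⟩ := d.pw_val hj
  rw [hz, nn_int_add]

end Q214.RS
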