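import Mathlib
import Pool.Agent.Q214.RS.Basic
import Pool.Agent.H418R3.GurWF

/-!
From an irrational rotation along the coded sequence to an infinite branch.
-/

namespace Q214.RS

open Pool.Agent.H418R3.Gur

def tA (m i : ℕ) : ℤ := if i + w m ≤ G m then 2 ^ (Tt m + i) else 0

def tB (T : List ℕ → Bool) (m j : ℕ) : ℤ :=
  if j ≤ w m ∧ inT T (nd m.unpair.1) = false then pw m j else 0

def nx (m : ℕ) : ℕ := Nat.pair m.unpair.1 (m.unpair.2 + 1)

def tC (m j : ℕ) : ℤ := if j ≤ w m then pw m j - pw (nx m) j else 0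

def pD (a k j : ℕ) : ℤ :=
  pw (Nat.pair a (Kk a k)) j - ∑ i ∈ Finset.range k, pw (Nat.pair (ch a i) (Kk a k)) j

def tD (m j : ℕ) : ℤ :=
  if m.unpair.1 + 1 ≤ j ∧ j ≤ 2 * Kk m.unpair.1 m.unpair.2 then pD m.unpair.1 m.unpair.2 j else 0

/-- all tests -/
def tst (T : List ℕ → Bool) (c m j : ℕ) : ℤ :=
  match c with
  | 0 => tA m j
  | 1 => tB T m j
  | 2 => tC m j
  | 3 => tD m j
  | _ => 0

theorem nx_pair (a k : ℕ) : nx (Nat.pair a k) = Nat.pair a (k + 1) := by
  unfold nx; rw [Nat.unpair_pair]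

theorem lt_nx (m : ℕ) : m < nx m := by
  conv_lhs => rw [← Nat.pair_unpair m]
  exact Nat.pair_lt_pair_right _ (Nat.lt_succ_self _)

theorem w_nx (m : ℕ) : w (nx m) = w m + 1 := by
  unfold nx
  rw [w_pair]
  unfold w
  omega

theorem K_le_G (a k c : ℕ) : 2 * Kk a k ≤ G (Nat.pair c (Kk a k)) := by
  unfold G
  rw [w_pair]
  omega

variable {θ : ℝ}

theorem Dig.nn_A (d : Dig θ) {m i : ℕ} : nn (((2 ^ (Tt m + i) : ℤ) : ℝ) * θ) = nn (2 ^ i * d.x m) := by
  have h : ((2 ^ (Tt m + i) : ℤ) : ℝ) * θ = ((2 ^ i * d.N m : ℤ) : ℝ) + 2 ^ i * d.x m := by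
    push_cast
    rw [pow_add]
    have := d.hN m
    calc (2 : ℝ) ^ Tt m * 2 ^ i * θ = 2 ^ i * (2 ^ Tt m * θ) := by ring
      _ = _ := by rw [this]; ring
  rw [h, nn_int_add]

theorem Dig.nn_C (d : Dig θ) {m j : ℕ} (hj : j ≤ w m) :
    nn (((pw m j - pw (nx m) j : ℤ) : ℝ) * θ) =
      nn ((((d.D m - d.D (nx m) : ℤ) : ℝ) + (d.x (m + 1) - d.x (nx m + 1))) / 2 ^ j) := by
  obtain ⟨z1, h1⟩ := d.pw_val (m := m) (j := j) (hj.trans (w_le_G m))
  obtain ⟨z2, h2⟩ := d.pw_val (m := nx m) (j := j)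
    (by have := w_nx m; have := w_le_G (nx m); omega)
  have h : (((pw m j - pw (nx m) j : ℤ) : ℝ) * θ) = ((z1 - z2 : ℤ) : ℝ) +
      (((d.D m - d.D (nx m) : ℤ) : ℝ) + (d.x (m + 1) - d.x (nx m + 1))) / 2 ^ j := by
    push_cast
    rw [sub_mul, h1, h2]
    ring
  rw [h, nn_int_add]

theorem Dig.nn_D (d : Dig θ) {a k j : ℕ} (hj : j ≤ 2 * Kk a k) :
    nn ((pD a k j : ℝ) * θ) =
      nn ((((d.D (Nat.pair a (Kk a k)) - ∑ i ∈ Finset.range k, d.D (Nat.pair (ch a i) (Kk a k)) : ℤ) : ℝ)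
        + (d.x (Nat.pair a (Kk a k) + 1) -
          ∑ i ∈ Finset.range k, d.x (Nat.pair (ch a i) (Kk a k) + 1))) / 2 ^ j) := by
  obtain ⟨z1, h1⟩ := d.pw_val (m := Nat.pair a (Kk a k)) (j := j) (hj.trans (K_le_G _ _ _))
  choose z2 h2 using fun i : ℕ => d.pw_val (m := Nat.pair (ch a i) (Kk a k)) (j := j)
    (hj.trans (K_le_G _ _ _))
  have h : ((pD a k j : ℝ) * θ) = ((z1 - ∑ i ∈ Finset.range k, z2 i : ℤ) : ℝ) +
      (((d.D (Nat.pair a (Kk a k)) - ∑ i ∈ Finset.range k, d.D (Nat.pair (ch a i) (Kk a k)) : ℤ) : ℝ)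
        + (d.x (Nat.pair a (Kk a k) + 1) -
          ∑ i ∈ Finset.range k, d.x (Nat.pair (ch a i) (Kk a k) + 1))) / 2 ^ j := by
    unfold pD
    push_cast
    rw [sub_mul, h1, Finset.sum_mul, Finset.sum_congr rfl (fun i _ => h2 i),
      Finset.sum_add_distrib, ← Finset.sum_div, Finset.sum_add_distrib]
    ring
  rw [h, nn_int_add]

/-- the digits given by rounding -/
noncomputable def rd (θ : ℝ) : Dig θ where
  x m := 2 ^ Tt m * θ - round (2 ^ Tt m * θ)
  N m := round (2 ^ Tt m * θ)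
  D m := round (2 ^ Tt (m + 1) * θ) - 2 ^ G m * round (2 ^ Tt m * θ)
  hN m := by ring
  hD m := by
    push_cast
    rw [Tt_succ, pow_add]
    ring

theorem rd_x (θ : ℝ) (m : ℕ) : |(rd θ).x m| ≤ 1 / 2 := abs_sub_round _

section

variable {T : List ℕ → Bool} {M : ℕ}
  (hM : ∀ m, M ≤ m → ∀ c q, nn ((tst T c m q : ℝ) * θ) < 1 / 64)

include hM

theorem f_A {m : ℕ} (hm : M ≤ m) : |2 ^ (G m - w m) * (rd θ).x m| < 1 / 64 := by
  apply doubling (rd_x θ m) (by norm_num)
  intro i hi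
  have h := hM m hm 0 i
  simp only [tst, tA] at h
  rw [if_pos (by have := w_le_G m; omega), (rd θ).nn_A] at h
  exact h

theorem f_x {m : ℕ} (hm : M ≤ m) : |(rd θ).x m| < 1 / 64 * (1 / 2 ^ m) := by
  have h := f_A hM hm
  rw [abs_mul, abs_of_pos (by positivity)] at h
  have h1 : (2 : ℝ) ^ m ≤ 2 ^ (G m - w m) := by
    apply pow_le_pow_right₀ (by norm_num)
    unfold G; omega
  have h2 : (2 : ℝ) ^ m * |(rd θ).x m| < 1 / 64 :=
    lt_of_le_of_lt (mul_le_mul_of_nonneg_right h1 (abs_nonneg _)) h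
  rw [mul_one_div, lt_div_iff₀ (by positivity), mul_comm]
  exact h2

theorem f_x' {m : ℕ} (hm : M ≤ m) : |(rd θ).x m| < 1 / 64 := by
  refine (f_x hM hm).trans_le ?_
  have : (1 : ℝ) / 2 ^ m ≤ 1 := by
    rw [div_le_one (by positivity)]
    exact one_le_pow₀ (by norm_num)
  linarith

theorem f_D {m : ℕ} (hm : M ≤ m) : |((rd θ).D m : ℝ)| < 2 ^ w m / 32 := by
  have h1 := f_A hM hm
  have h2 := f_x' hM (hm.trans (Nat.le_succ m))
  have h3 := (rd θ).hD m
  have h4 : ((rd θ).D m : ℝ) = 2 ^ w m * (2 ^ (G m - w m) * (rd θ).x m) - (rd θ).x (m + 1) := by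
    rw [← mul_assoc, ← pow_add, show w m + (G m - w m) = G m by have := w_le_G m; omega, h3]
    ring
  have h5 : (1 : ℝ) ≤ 2 ^ w m := one_le_pow₀ (by norm_num)
  have h6 : |2 ^ w m * (2 ^ (G m - w m) * (rd θ).x m)| < 2 ^ w m * (1 / 64) := by
    rw [abs_mul, abs_of_pos (by positivity : (0 : ℝ) < 2 ^ w m)]
    exact mul_lt_mul_of_pos_left h1 (by positivity)
  have h7 := abs_sub (2 ^ w m * (2 ^ (G m - w m) * (rd θ).x m)) ((rd θ).x (m + 1))
  rw [h4]
  linarith

theorem f_C {m : ℕ} (hm : M ≤ m) : (rd θ).D m = (rd θ).D (nx m) := by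
  by_contra hne
  have hne' : (rd θ).D m - (rd θ).D (nx m) ≠ 0 := sub_ne_zero.mpr hne
  have hm' : M ≤ nx m := hm.trans (lt_nx m).le
  have h1 := f_D hM hm
  have h2 := f_D hM hm'
  rw [w_nx, pow_succ] at h2
  have h3 : |(((rd θ).D m - (rd θ).D (nx m) : ℤ) : ℝ)| < 2 ^ w m := by
    push_cast
    have h3 := abs_sub ((rd θ).D m : ℝ) ((rd θ).D (nx m) : ℝ)
    have : (0 : ℝ) < 2 ^ w m := by positivity
    linarith
  obtain ⟨j, hj1, hj2, -, -⟩ := exists_bit (not_dvd_of_lt hne' h3)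
  have h4 := hM m hm 2 j
  simp only [tst, tC] at h4
  rw [if_pos hj1, (rd θ).nn_C hj1, add_div] at h4
  have h5 := nn_sub ((((rd θ).D m - (rd θ).D (nx m) : ℤ) : ℝ) / 2 ^ j +
    ((rd θ).x (m + 1) - (rd θ).x (nx m + 1)) / 2 ^ j) (((rd θ).x (m + 1) - (rd θ).x (nx m + 1)) / 2 ^ j)
  rw [add_sub_cancel_right] at h5
  have h6 : nn (((rd θ).x (m + 1) - (rd θ).x (nx m + 1)) / 2 ^ j) ≤ 1 / 32 := by
    refine (nn_le_abs _).trans ?_
    rw [abs_div, abs_of_pos (by positivity : (0 : ℝ) < 2 ^ j), div_le_iff₀ (by positivity)]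
    have h7 := f_x' hM (hm.trans (Nat.le_succ m))
    have h8 := f_x' hM (hm'.trans (Nat.le_succ _))
    have h9 := abs_sub ((rd θ).x (m + 1)) ((rd θ).x (nx m + 1))
    have h10 : (1 : ℝ) ≤ 2 ^ j := one_le_pow₀ (by norm_num)
    linarith
  linarith

/-- the eventual digit at a node -/
theorem f_const (a : ℕ) {k k' : ℕ} (hk : M ≤ Nat.pair a k) (hkk : k ≤ k') :
    (rd θ).D (Nat.pair a k') = (rd θ).D (Nat.pair a k) := by
  induction k', hkk using Nat.le_induction with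
  | base => rfl
  | succ n hn ih =>
    have h := f_C hM (m := Nat.pair a n)
      (hk.trans (by
        rcases Nat.lt_or_ge k n with h | h
        · exact (Nat.pair_lt_pair_right a h).le
        · rw [le_antisymm hn h]))
    rw [nx_pair] at h
    rw [← h, ih]

theorem f_X {m : ℕ} (hm : M ≤ m) :
    (rd θ).D m = (rd θ).D (Nat.pair m.unpair.1 M) := by
  have h1 := f_const hM m.unpair.1 (k := m.unpair.2) (k' := max m.unpair.2 M)
    (by rw [Nat.pair_unpair]; exact hm) (le_max_left _ _)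
  have h2 := f_const hM m.unpair.1 (k := M) (k' := max m.unpair.2 M)
    (Nat.right_le_pair _ _) (le_max_right _ _)
  rw [Nat.pair_unpair] at h1
  rw [← h1, h2]

theorem f_X' (a : ℕ) {k : ℕ} (hk : M ≤ k) :
    (rd θ).D (Nat.pair a k) = (rd θ).D (Nat.pair a M) :=
  f_const hM a (Nat.right_le_pair _ _) hk

/-- some eventual digit is nonzero -/
theorem f_exists (hθ : Irrational θ) : ∃ a, (rd θ).D (Nat.pair a M) ≠ 0 := by
  by_contra hall
  push Not at hall
  have h0 : ∀ m, M ≤ m → (rd θ).D m = 0 := fun m hm => by rw [f_X hM hm]; exact hall _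
  have h1 : ∀ n, 2 ^ n * |(rd θ).x M| ≤ |(rd θ).x (M + n)| := by
    intro n
    induction n with
    | zero => simp
    | succ n ih =>
      have h2 := (rd θ).hD (M + n)
      rw [h0 (M + n) (by omega)] at h2
      rw [← add_assoc]
      have h3 : (rd θ).x (M + n + 1) = 2 ^ G (M + n) * (rd θ).x (M + n) := by
        rw [h2]; simp
      rw [h3, abs_mul, abs_of_pos (by positivity : (0 : ℝ) < 2 ^ G (M + n))]
      have h4 : (2 : ℝ) ≤ 2 ^ G (M + n) := by
        calc (2 : ℝ) = 2 ^ 1 := by norm_num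
          _ ≤ _ := pow_le_pow_right₀ (by norm_num) (by unfold G; omega)
      calc (2 : ℝ) ^ (n + 1) * |(rd θ).x M| = 2 * (2 ^ n * |(rd θ).x M|) := by rw [pow_succ]; ring
        _ ≤ 2 * |(rd θ).x (M + n)| := by linarith
        _ ≤ _ := mul_le_mul_of_nonneg_right h4 (abs_nonneg _)
  have h2 : (rd θ).x M = 0 := by
    by_contra hne
    have hpos : 0 < |(rd θ).x M| := abs_pos.mpr hne
    obtain ⟨n, hn⟩ := pow_unbounded_of_one_lt (1 / |(rd θ).x M|) (by norm_num : (1 : ℝ) < 2)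
    have h3 := h1 n
    have h4 := rd_x θ (M + n)
    have h5 : 1 < 2 ^ n * |(rd θ).x M| := by
      rw [div_lt_iff₀ hpos] at hn
      exact hn
    linarith
  have h3 := (rd θ).hN M
  rw [h2, add_zero] at h3
  apply hθ
  refine ⟨((rd θ).N M : ℚ) / 2 ^ Tt M, ?_⟩
  push_cast
  rw [← h3]
  field_simp

theorem f_B {a : ℕ} (ha : (rd θ).D (Nat.pair a M) ≠ 0) : inT T (nd a) = true := by
  by_contra hne
  have hne : inT T (nd a) = false := by simpa using hne
  have hm : M ≤ Nat.pair a M := Nat.right_le_pair _ _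
  have h1 := f_D hM hm
  have h1' : |((rd θ).D (Nat.pair a M) : ℝ)| < 2 ^ w (Nat.pair a M) := by
    have : (0 : ℝ) < 2 ^ w (Nat.pair a M) := by positivity
    linarith
  obtain ⟨j, hj1, hj2, -, -⟩ := exists_bit (not_dvd_of_lt ha h1')
  have h4 := hM (Nat.pair a M) hm 1 j
  simp only [tst, tB] at h4
  rw [if_pos ⟨hj1, by rw [Nat.unpair_pair]; exact hne⟩, (rd θ).nn_pw (hj1.trans (w_le_G _)),
    add_div] at h4
  have h5 := nn_sub (((rd θ).D (Nat.pair a M) : ℝ) / 2 ^ j +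
    ((rd θ).x (Nat.pair a M + 1)) / 2 ^ j) (((rd θ).x (Nat.pair a M + 1)) / 2 ^ j)
  rw [add_sub_cancel_right] at h5
  have h6 : nn (((rd θ).x (Nat.pair a M + 1)) / 2 ^ j) ≤ 1 / 64 := by
    refine (nn_le_abs _).trans ?_
    rw [abs_div, abs_of_pos (by positivity : (0 : ℝ) < 2 ^ j), div_le_iff₀ (by positivity)]
    have h7 := f_x' hM (hm.trans (Nat.le_succ _))
    have h10 : (1 : ℝ) ≤ 2 ^ j := one_le_pow₀ (by norm_num)
    linarith
  linarith

end

theorem two_pow_ge (k : ℕ) : ((k : ℝ) + 1) ≤ 2 ^ k := by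
  have := Nat.lt_two_pow_self (n := k)
  exact_mod_cast this

theorem f_child {T : List ℕ → Bool} {M : ℕ}
    (hM : ∀ m, M ≤ m → ∀ c q, nn ((tst T c m q : ℝ) * θ) < 1 / 64)
    (hall : ∀ ε : ℝ, 0 < ε → ∃ M, ∀ m, M ≤ m → ∀ c q, nn ((tst T c m q : ℝ) * θ) < ε)
    {a : ℕ} (ha : (rd θ).D (Nat.pair a M) ≠ 0) :
    ∃ i, (rd θ).D (Nat.pair (ch a i) M) ≠ 0 := by
  by_contra hno
  push Not at hno
  obtain ⟨M1, hM1⟩ := hall (1 / 2 ^ (a + 2)) (by positivity)
  set k := max M M1 with hk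
  set K := Kk a k with hK
  have hkM : M ≤ k := le_max_left _ _
  have hkM1 : M1 ≤ k := le_max_right _ _
  have hKk : 2 * k + a + 10 ≤ K := by rw [hK]; unfold Kk; omega
  have hKM : M ≤ K := by omega
  set y : ℤ := (rd θ).D (Nat.pair a K) - ∑ i ∈ Finset.range k, (rd θ).D (Nat.pair (ch a i) K) with hy
  have hy1 : y = (rd θ).D (Nat.pair a M) := by
    rw [hy, f_X' hM a hKM, Finset.sum_eq_zero, sub_zero]
    intro i _
    rw [f_X' hM _ hKM]
    exact hno i
  have hy0 : y ≠ 0 := by rw [hy1]; exact ha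
  have hylt : |(y : ℝ)| < 2 ^ (2 * K) := by
    have h1 := f_D hM (m := Nat.pair a K) (hKM.trans (Nat.right_le_pair _ _))
    rw [hy1, ← f_X' hM a hKM]
    rw [w_pair] at h1
    have h2 : (2 : ℝ) ^ (a + K + 5) / 32 = 2 ^ (a + K) := by
      rw [pow_add]; norm_num
    rw [h2] at h1
    exact h1.trans_le (pow_le_pow_right₀ (by norm_num) (by omega))
  have hex : ∃ j, a + 1 ≤ j ∧ j ≤ 2 * K ∧ 1 / (2 : ℝ) ^ (a + 1) ≤ nn ((y : ℝ) / 2 ^ j) := by
    by_cases hd : (2 : ℤ) ^ (a + 1) ∣ y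
    · obtain ⟨j, hj1, hj2, hj3, -⟩ := exists_bit (not_dvd_of_lt hy0 hylt)
      refine ⟨j, ?_, hj1, le_trans ?_ hj2⟩
      · by_contra hc
        push Not at hc
        exact hj3 ((pow_dvd_pow 2 hc.le).trans hd)
      · apply one_div_le_one_div_of_le (by norm_num)
        calc (2 : ℝ) = 2 ^ 1 := by norm_num
          _ ≤ _ := pow_le_pow_right₀ (by norm_num) (by omega)
    · refine ⟨a + 1, le_rfl, by omega, ?_⟩
      have := @nn_frac (2 ^ (a + 1)) (by positivity) y (by push_cast; exact hd)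
      push_cast at this
      exact this
  obtain ⟨j, hj1, hj2, hj3⟩ := hex
  have h4 := hM1 (Nat.pair a k) (hkM1.trans (Nat.right_le_pair _ _)) 3 j
  simp only [tst, tD, Nat.unpair_pair] at h4
  rw [if_pos ⟨hj1, hj2⟩, (rd θ).nn_D hj2, add_div] at h4
  set E : ℝ := (rd θ).x (Nat.pair a K + 1) -
          ∑ i ∈ Finset.range k, (rd θ).x (Nat.pair (ch a i) K + 1) with hE
  have h5 := nn_sub ((y : ℝ) / 2 ^ j + E / 2 ^ j) (E / 2 ^ j)
  rw [add_sub_cancel_right] at h5
  have hxK : ∀ c, |(rd θ).x (Nat.pair c K + 1)| ≤ 1 / 2 ^ K := by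
    intro c
    have h := f_x hM (m := Nat.pair c K + 1)
      (by have := Nat.right_le_pair c K; omega)
    refine h.le.trans ?_
    have h1 : (1 : ℝ) / 2 ^ (Nat.pair c K + 1) ≤ 1 / 2 ^ K := by
      apply one_div_le_one_div_of_le (by positivity)
      exact pow_le_pow_right₀ (by norm_num) (by have := Nat.right_le_pair c K; omega)
    have h2 : (0 : ℝ) < 1 / 2 ^ (Nat.pair c K + 1) := by positivity
    linarith
  have hEb : |E| ≤ 1 / 2 ^ (a + 2) := by
    have h1 : |E| ≤ ((k : ℝ) + 1) * (1 / 2 ^ K) := by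
      refine (abs_sub _ _).trans ?_
      have h2 := Finset.abs_sum_le_sum_abs (fun i => (rd θ).x (Nat.pair (ch a i) K + 1)) (Finset.range k)
      have h3 : ∑ i ∈ Finset.range k, |(rd θ).x (Nat.pair (ch a i) K + 1)| ≤ k * (1 / 2 ^ K) := by
        have := Finset.sum_le_card_nsmul (Finset.range k)
          (fun i => |(rd θ).x (Nat.pair (ch a i) K + 1)|) (1 / 2 ^ K) (fun i _ => hxK _)
        rw [Finset.card_range, nsmul_eq_mul] at this
        exact this
      have h4 := hxK a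
      linarith
    have h2 : ((k : ℝ) + 1) * (1 / 2 ^ K) ≤ 2 ^ k * (1 / 2 ^ K) :=
      mul_le_mul_of_nonneg_right (two_pow_ge k) (by positivity)
    have h3 : (2 : ℝ) ^ k * (1 / 2 ^ K) ≤ 1 / 2 ^ (a + 2) := by
      rw [mul_one_div, div_le_div_iff₀ (by positivity) (by positivity), one_mul, ← pow_add]
      exact pow_le_pow_right₀ (by norm_num) (by omega)
    linarith
  have h6 : nn (E / 2 ^ j) ≤ 1 / 2 ^ (a + 2) := by
    refine (nn_le_abs _).trans ?_
    rw [abs_div, abs_of_pos (by positivity : (0 : ℝ) < 2 ^ j)]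
    refine (div_le_self (abs_nonneg _) (one_le_pow₀ (by norm_num))).trans hEb
  have h7 : (1 : ℝ) / 2 ^ (a + 1) = 1 / 2 ^ (a + 2) + 1 / 2 ^ (a + 2) := by
    rw [pow_succ 2 (a + 1)]
    field_simp
    norm_num
  linarith

/-! ### the branch -/

theorem br_suffix (b : ℕ → ℕ) {n m : ℕ} (h : n ≤ m) : br b n <:+ br b m := by
  induction m, h using Nat.le_induction with
  | base => exact List.suffix_refl _
  | succ k _ ih => exact ih.trans (List.suffix_cons _ _)

theorem br_of_getD (b : ℕ → ℕ) : ∀ s : List ℕ,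
    (∀ k, k < s.length → b k = s.reverse.getD k 0) → br b s.length = s
  | [], _ => rfl
  | x :: s, h => by
    show b s.length :: br b s.length = x :: s
    have h1 : br b s.length = s := by
      apply br_of_getD b s
      intro k hk
      rw [h k (by simp; omega), List.reverse_cons, List.getD_append _ _ _ _ (by simpa using hk)]
    have h2 : b s.length = x := by
      rw [h s.length (by simp), List.reverse_cons, List.getD_append_right _ _ _ _ (by simp)]
      simp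
    rw [h1, h2]

theorem getD_prefix {p q : List ℕ} (h : p <+: q) {k : ℕ} (hk : k < p.length) :
    q.getD k 0 = p.getD k 0 := by
  obtain ⟨r, rfl⟩ := h
  exact List.getD_append _ _ _ _ hk

theorem branch_of {T : List ℕ → Bool} (P : ℕ → Prop) (h0 : ∃ a, P a)
    (hT : ∀ a, P a → inT T (nd a) = true) (hs : ∀ a, P a → ∃ i, P (ch a i)) : T ∈ IF := by
  classical
  obtain ⟨a0, ha0⟩ := h0
  choose! f hf using hs
  let g : ℕ → ℕ := fun n => Nat.rec a0 (fun _ a => ch a (f a)) n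
  have hg : ∀ n, P (g n) := by
    intro n
    induction n with
    | zero => exact ha0
    | succ n ih => exact hf _ ih
  have hgs : ∀ n, nd (g (n + 1)) = f (g n) :: nd (g n) := fun n => nd_ch _ _
  have hlen : ∀ n, (nd (g n)).length = (nd a0).length + n := by
    intro n
    induction n with
    | zero => rfl
    | succ n ih => rw [hgs, List.length_cons, ih]; ring
  have hsuf : ∀ {n m}, n ≤ m → nd (g n) <:+ nd (g m) := by
    intro n m h
    induction m, h using Nat.le_induction with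
    | base => exact List.suffix_refl _
    | succ k _ ih => rw [hgs]; exact ih.trans (List.suffix_cons _ _)
  have hpre : ∀ {n m}, n ≤ m → (nd (g n)).reverse <+: (nd (g m)).reverse := fun h =>
    List.reverse_prefix.mpr (hsuf h)
  let b : ℕ → ℕ := fun k => (nd (g (k + 1))).reverse.getD k 0
  have hb : ∀ n, br b (nd (g n)).length = nd (g n) := by
    intro n
    apply br_of_getD
    intro k hk
    show (nd (g (k + 1))).reverse.getD k 0 = _
    rcases Nat.le_total (k + 1) n with h | h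
    · rw [getD_prefix (hpre h) (by rw [List.length_reverse, hlen (k + 1)]; omega)]
    · rw [getD_prefix (hpre h) (by rw [List.length_reverse]; exact hk)]
  refine ⟨b, fun n => ?_⟩
  have h1 : br b n <:+ nd (g n) := by
    rw [← hb n]
    exact br_suffix b (by rw [hlen]; omega)
  exact inT_self (inT_suffix h1 (hT _ (hg n)))

theorem mem_IF_of {T : List ℕ → Bool} (hθ : Irrational θ)
    (hall : ∀ ε : ℝ, 0 < ε → ∃ M, ∀ m, M ≤ m → ∀ c q, nn ((tst T c m q : ℝ) * θ) < ε) : T ∈ IF := by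
  obtain ⟨M, hM⟩ := hall (1 / 64) (by norm_num)
  exact branch_of (fun a => (rd θ).D (Nat.pair a M) ≠ 0) (f_exists hM hθ) (fun a ha => f_B hM ha)
    (fun a ha => f_child hM hall ha)

end Q214.RS
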