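import Mathlib
import Pool.Agent.Q214.RS.Fwd

/-!
From an infinite branch to an irrational rotation along the coded sequence.
-/

namespace Q214.RS

open Pool.Agent.H418R3.Gur Filter Topology

section

variable (b : ℕ → ℕ)

open Classical in
/-- digits: `1` at the nodes of the branch -/
noncomputable def dg (m : ℕ) : ℤ := if nd m.unpair.1 = br b (nd m.unpair.1).length then 1 else 0

theorem dg_nonneg (m : ℕ) : 0 ≤ dg b m := by unfold dg; split_ifs <;> norm_num

theorem dg_le_one (m : ℕ) : dg b m ≤ 1 := by unfold dg; split_ifs <;> norm_num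

noncomputable def ff (m : ℕ) : ℝ := (dg b m : ℝ) / 2 ^ Tt (m + 1)

theorem ff_nonneg (m : ℕ) : 0 ≤ ff b m := by
  have := dg_nonneg b m
  unfold ff
  have h : (0 : ℝ) ≤ (dg b m : ℝ) := by exact_mod_cast this
  positivity

theorem Tt_add_le (m l : ℕ) : Tt m + l ≤ Tt (l + m) := by
  induction l with
  | zero => simp
  | succ l ih =>
    rw [show l + 1 + m = (l + m) + 1 by ring, Tt_succ]
    unfold G
    omega

theorem ff_le (m l : ℕ) : ff b (l + m) ≤ 1 / 2 ^ Tt (m + 1) * (1 / 2) ^ l := by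
  unfold ff
  have h1 : (dg b (l + m) : ℝ) ≤ 1 := by exact_mod_cast dg_le_one b (l + m)
  have h2 := Tt_add_le (m + 1) l
  calc (dg b (l + m) : ℝ) / 2 ^ Tt (l + m + 1) ≤ 1 / 2 ^ Tt (l + m + 1) := by gcongr
    _ ≤ 1 / 2 ^ (Tt (m + 1) + l) := by
      apply one_div_le_one_div_of_le (by positivity)
      exact pow_le_pow_right₀ (by norm_num) (by rw [show l + m + 1 = l + (m + 1) by ring]; exact h2)
    _ = _ := by rw [pow_add, one_div_pow]; field_simp

theorem ff_summable (m : ℕ) : Summable fun l => ff b (l + m) :=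
  Summable.of_nonneg_of_le (fun l => ff_nonneg b _) (ff_le b m)
    ((summable_geometric_of_lt_one (by norm_num) (by norm_num)).mul_left _)

noncomputable def tl (m : ℕ) : ℝ := ∑' l, ff b (l + m)

theorem tl_succ (m : ℕ) : tl b m = ff b m + tl b (m + 1) := by
  unfold tl
  rw [(ff_summable b m).tsum_eq_zero_add]
  simp only [zero_add]
  congr 1
  apply tsum_congr
  intro l
  congr 1
  ring

theorem tl_le (m : ℕ) : tl b m ≤ 2 / 2 ^ Tt (m + 1) := by
  unfold tl
  refine (Summable.tsum_le_tsum (ff_le b m) (ff_summable b m)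
    ((summable_geometric_of_lt_one (by norm_num) (by norm_num)).mul_left _)).trans (le_of_eq ?_)
  rw [tsum_mul_left, tsum_geometric_of_lt_one (by norm_num) (by norm_num)]
  norm_num
  field_simp

theorem dg_root (k : ℕ) : dg b (Nat.pair (cd []) k) = 1 := by
  unfold dg
  rw [Nat.unpair_pair]
  rw [if_pos]
  show nd (cd []) = br b (nd (cd [])).length
  rw [nd_cd]; rfl

theorem tl_pos (m : ℕ) : 0 < tl b m := by
  unfold tl
  have h : m ≤ Nat.pair (cd []) m := Nat.right_le_pair _ _
  obtain ⟨l, hl⟩ := Nat.exists_eq_add_of_le' h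
  refine (ff_summable b m).tsum_pos (fun l => ff_nonneg b _) l ?_
  rw [← hl]
  unfold ff
  rw [dg_root]
  positivity

/-- digit data of `θ = tl 0` -/
noncomputable def bd : Dig (tl b 0) where
  x m := 2 ^ Tt m * tl b m
  N m := Nat.rec 0 (fun m N => 2 ^ G m * N + dg b m) m
  D m := dg b m
  hN m := by
    induction m with
    | zero => simp [Tt]
    | succ m ih =>
      have h1 := tl_succ b m
      have h2 : (2 : ℝ) ^ Tt (m + 1) * ff b m = dg b m := by
        unfold ff; field_simp
      rw [Tt_succ, pow_add] at h2 ⊢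
      push_cast
      rw [mul_comm ((2 : ℝ) ^ Tt m), mul_assoc, ih, h1, mul_add, mul_add, ← h2]
      ring
  hD m := by
    have h1 := tl_succ b m
    have h2 : (2 : ℝ) ^ Tt (m + 1) * ff b m = dg b m := by
      unfold ff; field_simp
    rw [h1, ← h2, Tt_succ, pow_add]
    ring

theorem bd_x (m : ℕ) : (bd b).x m = 2 ^ Tt m * tl b m := rfl

theorem bd_D (m : ℕ) : (bd b).D m = dg b m := rfl

theorem bx_pos (m : ℕ) : 0 < (bd b).x m := by
  rw [bd_x]
  have := tl_pos b m
  positivity

theorem bx_le (m : ℕ) : (bd b).x m ≤ 2 / 2 ^ G m := by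
  rw [bd_x]
  have h := tl_le b m
  rw [Tt_succ, pow_add] at h
  calc (2 : ℝ) ^ Tt m * tl b m ≤ 2 ^ Tt m * (2 / (2 ^ Tt m * 2 ^ G m)) :=
        mul_le_mul_of_nonneg_left h (by positivity)
    _ = _ := by field_simp

theorem bx_le_m (m : ℕ) : (bd b).x m ≤ 1 / 2 ^ m := by
  refine (bx_le b m).trans ?_
  rw [div_le_div_iff₀ (by positivity) (by positivity), one_mul, ← pow_succ']
  exact pow_le_pow_right₀ (by norm_num) (by unfold G; omega)

theorem bx_irr : Irrational (tl b 0) := by
  rintro ⟨q, hq⟩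
  have hd : (0 : ℝ) < q.den := by exact_mod_cast q.den_pos
  obtain ⟨m, hm⟩ := pow_unbounded_of_one_lt (q.den : ℝ) (by norm_num : (1 : ℝ) < 2)
  have h1 := (bd b).hN m
  have h2 := bx_pos b m
  have h3 := bx_le_m b m
  have hq' : (q : ℝ) * q.den = q.num := by
    have := Rat.mul_den_eq_num q
    exact_mod_cast this
  have h4 : (q.den : ℝ) * (bd b).x m = ((2 ^ Tt m * q.num - q.den * (bd b).N m : ℤ) : ℝ) := by
    push_cast
    have h0 : (bd b).x m = 2 ^ Tt m * tl b 0 - (bd b).N m := by rw [h1]; ring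
    have h01 : (q.den : ℝ) * (bd b).x m = 2 ^ Tt m * (tl b 0 * q.den) - q.den * (bd b).N m := by
      rw [h0]; ring
    rw [h01, ← hq', hq]
  have h5 : 0 < (q.den : ℝ) * (bd b).x m := by positivity
  have h6 : (q.den : ℝ) * (bd b).x m < 1 := by
    calc (q.den : ℝ) * (bd b).x m ≤ q.den * (1 / 2 ^ m) := mul_le_mul_of_nonneg_left h3 hd.le
      _ < 1 := by
        rw [mul_one_div, div_lt_one (by positivity)]
        exact hm
  rw [h4] at h5 h6
  have h7 : (0 : ℤ) < 2 ^ Tt m * q.num - q.den * (bd b).N m := by exact_mod_cast h5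
  have h8 : 2 ^ Tt m * q.num - q.den * (bd b).N m < (1 : ℤ) := by exact_mod_cast h6
  omega

/-! #### bounds for the tests -/

theorem b_A (m i : ℕ) : nn ((tA m i : ℝ) * tl b 0) ≤ 2 / 2 ^ w m := by
  unfold tA
  split_ifs with h
  · rw [(bd b).nn_A]
    refine (nn_le_abs _).trans ?_
    have h1 := bx_pos b m
    rw [abs_of_pos (by positivity)]
    have h2 := bx_le b m
    calc (2 : ℝ) ^ i * (bd b).x m ≤ 2 ^ i * (2 / 2 ^ G m) := mul_le_mul_of_nonneg_left h2 (by positivity)
      _ ≤ 2 / 2 ^ w m := by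
        rw [mul_div_assoc', div_le_div_iff₀ (by positivity) (by positivity)]
        calc (2 : ℝ) ^ i * 2 * 2 ^ w m = 2 * 2 ^ (i + w m) := by rw [pow_add]; ring
          _ ≤ 2 * 2 ^ G m := by
            apply mul_le_mul_of_nonneg_left _ (by norm_num)
            exact pow_le_pow_right₀ (by norm_num) h
  · rw [Int.cast_zero, zero_mul, nn_zero]
    positivity

theorem abs_div_pow_le (x : ℝ) (j : ℕ) : |x / 2 ^ j| ≤ |x| := by
  rw [abs_div, abs_of_pos (by positivity : (0 : ℝ) < 2 ^ j)]
  exact div_le_self (abs_nonneg _) (one_le_pow₀ (by norm_num))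

theorem bx_abs (m : ℕ) {n : ℕ} (h : m ≤ n) : |(bd b).x (n + 1)| ≤ 1 / 2 ^ m := by
  rw [abs_of_pos (bx_pos b _)]
  refine (bx_le_m b _).trans ?_
  apply one_div_le_one_div_of_le (by positivity)
  exact pow_le_pow_right₀ (by norm_num) (by omega)

theorem b_B {T : List ℕ → Bool} (hT : ∀ n, T (br b n) = true) (m j : ℕ) :
    nn ((tB T m j : ℝ) * tl b 0) ≤ 1 / 2 ^ m := by
  unfold tB
  split_ifs with h
  · obtain ⟨h1, h2⟩ := h
    rw [(bd b).nn_pw (h1.trans (w_le_G m)), bd_D]
    have h3 : dg b m = 0 := by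
      unfold dg
      rw [if_neg]
      intro h4
      rw [h4, inT_br hT] at h2
      exact Bool.noConfusion h2
    rw [h3, Int.cast_zero, zero_add]
    exact (nn_le_abs _).trans ((abs_div_pow_le _ _).trans (bx_abs b m le_rfl))
  · rw [Int.cast_zero, zero_mul, nn_zero]
    positivity

theorem b_C (m j : ℕ) : nn ((tC m j : ℝ) * tl b 0) ≤ 2 / 2 ^ m := by
  unfold tC
  split_ifs with h
  · rw [(bd b).nn_C h, bd_D, bd_D]
    have h3 : dg b m = dg b (nx m) := by
      unfold dg nx
      rw [Nat.unpair_pair]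
    rw [h3, sub_self, Int.cast_zero, zero_add]
    refine (nn_le_abs _).trans ((abs_div_pow_le _ _).trans ((abs_sub _ _).trans ?_))
    have h4 := bx_abs b m le_rfl
    have h5 := bx_abs b m (lt_nx m).le
    have : (2 : ℝ) / 2 ^ m = 1 / 2 ^ m + 1 / 2 ^ m := by ring
    linarith
  · rw [Int.cast_zero, zero_mul, nn_zero]
    positivity

/-- for a node on the branch, the next value -/
noncomputable def nb (a : ℕ) : ℕ := b (nd a).length

theorem y_eq (a k K : ℕ) :
    dg b (Nat.pair a K) - ∑ i ∈ Finset.range k, dg b (Nat.pair (ch a i) K) =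
      if k ≤ nb b a then dg b (Nat.pair a K) else 0 := by
  by_cases ha : nd a = br b (nd a).length
  · have h1 : ∀ i, dg b (Nat.pair (ch a i) K) = if i = nb b a then 1 else 0 := by
      intro i
      unfold dg
      simp only [Nat.unpair_pair, nd_ch, List.length_cons]
      congr 1
      show (i :: nd a = b (nd a).length :: br b (nd a).length) = (i = nb b a)
      rw [List.cons.injEq]
      unfold nb
      simp only [eq_iff_iff]
      exact ⟨fun h => h.1, fun h => ⟨h, ha⟩⟩
    have h2 : dg b (Nat.pair a K) = 1 := by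
      unfold dg
      rw [Nat.unpair_pair, if_pos ha]
    rw [h2, Finset.sum_congr rfl (fun i _ => h1 i), Finset.sum_ite_eq']
    simp only [Finset.mem_range]
    split_ifs <;> omega
  · have h1 : ∀ i, dg b (Nat.pair (ch a i) K) = 0 := by
      intro i
      unfold dg
      simp only [Nat.unpair_pair, nd_ch, List.length_cons]
      rw [if_neg]
      intro h
      have h' : i :: nd a = b (nd a).length :: br b (nd a).length := h
      rw [List.cons.injEq] at h'
      exact ha h'.2
    have h2 : dg b (Nat.pair a K) = 0 := by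
      unfold dg
      rw [Nat.unpair_pair, if_neg ha]
    rw [h2, Finset.sum_eq_zero (fun i _ => h1 i)]
    simp

open Classical in
theorem b_D (m j : ℕ) : nn ((tD m j : ℝ) * tl b 0) ≤
    (if m.unpair.2 ≤ nb b m.unpair.1 then 1 / 2 ^ (m.unpair.1 + 1) else 0) + 1 / 2 ^ w m := by
  set a := m.unpair.1 with ha
  set k := m.unpair.2 with hk
  have hif : (0 : ℝ) ≤ (if k ≤ nb b a then 1 / 2 ^ (a + 1) else 0) := by
    split_ifs <;> positivity
  unfold tD
  rw [← ha, ← hk]
  by_cases h : a + 1 ≤ j ∧ j ≤ 2 * Kk a k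
  · rw [if_pos h]
    obtain ⟨h1, h2⟩ := h
    rw [(bd b).nn_D h2]
    simp only [bd_D]
    rw [y_eq, add_div]
    refine (nn_add _ _).trans (add_le_add ?_ ?_)
    · refine (nn_le_abs _).trans ?_
      by_cases h3 : k ≤ nb b a
      · rw [if_pos h3, if_pos h3]
        rw [abs_div, abs_of_pos (by positivity : (0 : ℝ) < 2 ^ j)]
        have h4 : |((dg b (Nat.pair a (Kk a k)) : ℤ) : ℝ)| ≤ 1 := by
          rw [abs_of_nonneg (by exact_mod_cast dg_nonneg b _)]
          exact_mod_cast dg_le_one b _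
        calc |((dg b (Nat.pair a (Kk a k)) : ℤ) : ℝ)| / 2 ^ j ≤ 1 / 2 ^ j := by gcongr
          _ ≤ 1 / 2 ^ (a + 1) := by
            apply one_div_le_one_div_of_le (by positivity)
            exact pow_le_pow_right₀ (by norm_num) h1
      · rw [if_neg h3, if_neg h3]
        simp
    · refine (nn_le_abs _).trans ((abs_div_pow_le _ _).trans ?_)
      set K := Kk a k with hK
      have hxK : ∀ c, |(bd b).x (Nat.pair c K + 1)| ≤ 1 / 2 ^ K := fun c =>
        bx_abs b K (Nat.right_le_pair _ _)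
      have h1 : |(bd b).x (Nat.pair a K + 1) - ∑ i ∈ Finset.range k, (bd b).x (Nat.pair (ch a i) K + 1)|
          ≤ ((k : ℝ) + 1) * (1 / 2 ^ K) := by
        refine (abs_sub _ _).trans ?_
        have h2 := Finset.abs_sum_le_sum_abs (fun i => (bd b).x (Nat.pair (ch a i) K + 1))
          (Finset.range k)
        have h3 : ∑ i ∈ Finset.range k, |(bd b).x (Nat.pair (ch a i) K + 1)| ≤ k * (1 / 2 ^ K) := by
          have := Finset.sum_le_card_nsmul (Finset.range k)
            (fun i => |(bd b).x (Nat.pair (ch a i) K + 1)|) (1 / 2 ^ K) (fun i _ => hxK _)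
          rw [Finset.card_range, nsmul_eq_mul] at this
          exact this
        have h4 := hxK a
        linarith
      refine h1.trans ?_
      have h2 : ((k : ℝ) + 1) * (1 / 2 ^ K) ≤ 2 ^ k * (1 / 2 ^ K) :=
        mul_le_mul_of_nonneg_right (two_pow_ge k) (by positivity)
      refine h2.trans ?_
      rw [mul_one_div, div_le_div_iff₀ (by positivity) (by positivity), one_mul, ← pow_add]
      apply pow_le_pow_right₀ (by norm_num)
      rw [hK]
      unfold Kk w
      omega
  · rw [if_neg h, Int.cast_zero, zero_mul, nn_zero]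
    positivity

theorem tendsto_inv_pow {f : ℕ → ℕ} (hf : Tendsto f atTop atTop) (c : ℝ) :
    Tendsto (fun m => c / 2 ^ f m) atTop (𝓝 0) := by
  have h1 : Tendsto (fun n : ℕ => c * (1 / 2 : ℝ) ^ n) atTop (𝓝 (c * 0)) :=
    (tendsto_pow_atTop_nhds_zero_of_lt_one (by norm_num) (by norm_num)).const_mul c
  rw [mul_zero] at h1
  have h2 := h1.comp hf
  refine h2.congr (fun m => ?_)
  show c * (1 / 2 : ℝ) ^ f m = _
  rw [one_div_pow, mul_one_div]

open Classical in
theorem tendsto_v : Tendsto (fun m : ℕ =>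
    (if m.unpair.2 ≤ nb b m.unpair.1 then 1 / (2 : ℝ) ^ (m.unpair.1 + 1) else 0)) atTop (𝓝 0) := by
  rw [Metric.tendsto_atTop]
  intro ε hε
  obtain ⟨A, hA⟩ := exists_pow_lt_of_lt_one hε (by norm_num : (1 / 2 : ℝ) < 1)
  refine ⟨∑ a ∈ Finset.range A, ∑ k ∈ Finset.range (nb b a + 1), Nat.pair a k + 1, fun m hm => ?_⟩
  rw [Real.dist_eq, sub_zero]
  split_ifs with h
  · rw [abs_of_pos (by positivity)]
    have hAm : A ≤ m.unpair.1 := by
      by_contra hc
      push Not at hc
      have h1 := Finset.single_le_sum (f := fun k => Nat.pair m.unpair.1 k)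
        (s := Finset.range (nb b m.unpair.1 + 1)) (fun _ _ => Nat.zero_le _)
        (Finset.mem_range.mpr (Nat.lt_succ_of_le h))
      have h2 := Finset.single_le_sum
        (f := fun a => ∑ k ∈ Finset.range (nb b a + 1), Nat.pair a k)
        (s := Finset.range A) (fun _ _ => Nat.zero_le _) (Finset.mem_range.mpr hc)
      simp only [Nat.pair_unpair] at h1 h2
      omega
    refine lt_of_le_of_lt ?_ hA
    rw [one_div_pow]
    apply one_div_le_one_div_of_le (by positivity)
    exact pow_le_pow_right₀ (by norm_num) (by omega)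
  · simpa using hε

open Classical in
noncomputable def ub (m : ℕ) : ℝ :=
  2 / 2 ^ w m + 1 / 2 ^ m + 2 / 2 ^ m +
    ((if m.unpair.2 ≤ nb b m.unpair.1 then 1 / 2 ^ (m.unpair.1 + 1) else 0) + 1 / 2 ^ w m)

theorem tendsto_ub : Tendsto (ub b) atTop (𝓝 0) := by
  have h1 := tendsto_inv_pow tendsto_w 2
  have h2 := tendsto_inv_pow (tendsto_id (α := ℕ) (x := atTop)) 1
  have h3 := tendsto_inv_pow (tendsto_id (α := ℕ) (x := atTop)) 2
  have h4 := tendsto_v b
  have h5 := tendsto_inv_pow tendsto_w 1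
  have := ((h1.add h2).add h3).add (h4.add h5)
  simp only [add_zero] at this
  exact this

theorem b_all {T : List ℕ → Bool} (hT : ∀ n, T (br b n) = true) (c m j : ℕ) :
    nn ((tst T c m j : ℝ) * tl b 0) ≤ ub b m := by
  classical
  have e1 : (0 : ℝ) < 2 / 2 ^ w m := by positivity
  have e2 : (0 : ℝ) < 1 / 2 ^ m := by positivity
  have e3 : (0 : ℝ) < 2 / 2 ^ m := by positivity
  have e5 : (0 : ℝ) < 1 / 2 ^ w m := by positivity
  have e4 : (0 : ℝ) ≤ (if m.unpair.2 ≤ nb b m.unpair.1 then 1 / 2 ^ (m.unpair.1 + 1) else 0) := by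
    split_ifs <;> positivity
  have hub : ub b m = 2 / 2 ^ w m + 1 / 2 ^ m + 2 / 2 ^ m +
    ((if m.unpair.2 ≤ nb b m.unpair.1 then 1 / 2 ^ (m.unpair.1 + 1) else 0) + 1 / 2 ^ w m) := by
    unfold ub
    congr
  rw [hub]
  match c with
  | 0 => have := b_A b m j; simp only [tst]; linarith
  | 1 => have := b_B b hT m j; simp only [tst]; linarith
  | 2 => have := b_C b m j; simp only [tst]; linarith
  | 3 =>
    have := b_D b m j
    simp only [tst]
    have h : nn ((tD m j : ℝ) * tl b 0) ≤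
      (if m.unpair.2 ≤ nb b m.unpair.1 then 1 / 2 ^ (m.unpair.1 + 1) else 0) + 1 / 2 ^ w m := by
      convert this
    linarith
  | (n + 4) =>
    simp only [tst]
    rw [Int.cast_zero, zero_mul, nn_zero]
    linarith

end

/-- range of the last index -/
def rg (m : ℕ) : ℕ := G m + 2 * Kk m.unpair.1 m.unpair.2

theorem tst_zero {T : List ℕ → Bool} {c m j : ℕ} (h : tst T c m j ≠ 0) : c < 4 ∧ j ≤ rg m := by
  unfold rg
  match c with
  | 0 =>
    refine ⟨by norm_num, ?_⟩
    simp only [tst, tA] at h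
    by_contra hc
    apply h
    rw [if_neg]
    omega
  | 1 =>
    refine ⟨by norm_num, ?_⟩
    simp only [tst, tB] at h
    by_contra hc
    apply h
    rw [if_neg]
    have := w_le_G m
    rintro ⟨h1, -⟩
    omega
  | 2 =>
    refine ⟨by norm_num, ?_⟩
    simp only [tst, tC] at h
    by_contra hc
    apply h
    rw [if_neg]
    have := w_le_G m
    omega
  | 3 =>
    refine ⟨by norm_num, ?_⟩
    simp only [tst, tD] at h
    by_contra hc
    apply h
    rw [if_neg]
    rintro ⟨-, h1⟩
    omega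
  | (n + 4) => simp only [tst] at h; exact absurd rfl h

theorem exists_irr {T : List ℕ → Bool} (hT : T ∈ IF) :
    ∃ θ : ℝ, Irrational θ ∧ ∀ ε : ℝ, 0 < ε →
      {t : ℕ × ℕ × ℕ | ε ≤ nn ((tst T t.1 t.2.1 t.2.2 : ℝ) * θ)}.Finite := by
  obtain ⟨b, hb⟩ := hT
  refine ⟨tl b 0, bx_irr b, fun ε hε => ?_⟩
  have h1 := (tendsto_ub b).eventually (gt_mem_nhds hε)
  rw [eventually_atTop] at h1
  obtain ⟨M, hM⟩ := h1
  apply Set.Finite.subset (Set.Finite.prod (Finset.finite_toSet (Finset.range 4))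
    (Set.Finite.prod (Finset.finite_toSet (Finset.range M))
      (Finset.finite_toSet (Finset.range (∑ m ∈ Finset.range M, rg m + 1)))))
  rintro ⟨c, m, j⟩ h
  have h' : ε ≤ nn ((tst T c m j : ℝ) * tl b 0) := h
  have h0 : tst T c m j ≠ 0 := by
    intro h0
    rw [h0, Int.cast_zero, zero_mul, nn_zero] at h'
    linarith
  obtain ⟨h2, h3⟩ := tst_zero h0
  have h4 : m < M := by
    by_contra hc
    push Not at hc
    have h5 := hM m hc
    have h6 := b_all b hb c m j
    linarith
  have h5 := Finset.single_le_sum (f := rg) (s := Finset.range M) (fun _ _ => Nat.zero_le _)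
    (Finset.mem_range.mpr h4)
  simp only [Set.mem_prod, Finset.mem_coe, Finset.mem_range]
  exact ⟨h2, h4, by omega⟩

end Q214.RS
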